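import Pool.Agent.Helper221.BID.Main

/-!
# Counterexamples to Stanley's decomposition conjecture that embed in `ℝ^d`, for every `d ≥ 3`

The obstruction (`Pool.Agent.Helper221.BID.not_decomp`): let the bottoms of a decomposition into
rank `k` boolean intervals form a subcomplex, and let `[∅, F]` be the interval of the empty face.
No vertex of `F` lies in a bottom.  If `x ∉ F` is a vertex joined to `a, b ∈ F`, then the edges
`{a, x}` and `{b, x}` lie in the interval with bottom `{x}`, so `{a, b, x}` is a face.  Hence there
is no such decomposition if every face with `k` vertices contains two vertices that lie in a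
missing triangle.  This happens for `k = 2` in a 3-ball with 9 vertices, all of them on the
boundary, and 19 tetrahedra (found by computer), and the property passes to cones, with `k`
replaced by `k + 1`.
-/

set_option autoImplicit false

universe u

namespace Pool.Agent.Results.MP_c23581_co.EmbeddedCounterexamples

open Pool.Agent.Helper221.BID

/-- For every `d ≥ 3` there is a `d`-dimensional complex that embeds into `ℝ^d` (it is even a
ball), is `(d - 1)`-fold acyclic over every field, and has no decomposition into rank `d - 1`
boolean intervals whose bottoms form a subcomplex. -/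
theorem result : ∀ d : ℕ, 3 ≤ d → ∃ Δ : Cpx, Δ.HasDim d ∧ Δ.Embeds d ∧ Δ.IsBall d ∧
    (∀ (F : Type u) [Field F], Δ.KFoldAcyclic F (d - 1)) ∧
    ¬ ∃ D, Δ.IsDecomp (d - 1) D ∧ BottomsSubcomplex D := by
  intro d hd
  obtain ⟨m, rfl⟩ : ∃ m, d = m + 3 := ⟨d - 3, by omega⟩
  exact ⟨KB m, KB_dim m, embeds_of_ball (KB_ball m), KB_ball m, fun F _ => KB_kfold F m,
    not_decomp (KB_obs m)⟩

end Pool.Agent.Results.MP_c23581_co.EmbeddedCounterexamples
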